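import Mathlib

/-!
The poset of finite subsets of the positive integers supports no constant rate distribution.
-/

set_option autoImplicit false

namespace Pool.Agent.Results.MP_e3a9f0_pr.NoConstantRate

open scoped ENNReal

/-- `f` is the density (with respect to counting measure) of a probability distribution on the
finite subsets of the positive integers. -/
def IsDistribution (f : Finset ℕ+ → ℝ) : Prop := (∀ x, 0 ≤ f x) ∧ HasSum f 1

open Classical in
/-- Upper probability function `F(x) = P(X ⊇ x)`. -/
noncomputable def upper (f : Finset ℕ+ → ℝ) (x : Finset ℕ+) : ℝ :=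
  ∑' y : Finset ℕ+, if x ⊆ y then f y else 0

/-- The distribution has constant rate `α`. -/
def HasConstantRate (f : Finset ℕ+ → ℝ) (α : ℝ) : Prop := ∀ x, f x = α * upper f x

section aux

variable (g : Finset ℕ+ → ℝ≥0∞) (a : ℝ≥0∞)

open Classical in
lemma gen_step (h : ∀ x, g x = a * ∑' y, if x ⊆ y then g y else 0) (z : ℝ≥0∞) :
    ∑' x, g x * z ^ x.card = a * ∑' x, g x * (z + 1) ^ x.card := by
  calc ∑' x, g x * z ^ x.card = ∑' x : Finset ℕ+, a * ∑' y, (if x ⊆ y then g y * z ^ x.card else 0) := by
        refine tsum_congr (fun x => ?_)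
        rw [h x, mul_assoc, ← ENNReal.tsum_mul_right]
        congr 1
        refine tsum_congr (fun y => ?_)
        split_ifs <;> simp
    _ = a * ∑' y : Finset ℕ+, ∑' x, (if x ⊆ y then g y * z ^ x.card else 0) := by
        rw [ENNReal.tsum_mul_left, ENNReal.tsum_comm]
    _ = _ := by
        congr 1
        refine tsum_congr (fun y => ?_)
        rw [tsum_eq_sum (s := y.powerset)]
        · have h2 := Finset.sum_pow_mul_eq_add_pow z (1 : ℝ≥0∞) y
          rw [← h2, Finset.mul_sum]
          refine Finset.sum_congr rfl (fun x hx => ?_)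
          rw [Finset.mem_powerset] at hx
          rw [if_pos hx, one_pow, mul_one]
        · intro x hx
          rw [Finset.mem_powerset] at hx
          rw [if_neg hx]

open Classical in
lemma gen_step_j (h : ∀ x, g x = a * ∑' y, if x ⊆ y then g y else 0) (z : ℝ≥0∞) (j : ℕ+) :
    ∑' x, (if j ∈ x then g x * z ^ (x.erase j).card else 0) =
      a * ∑' x, (if j ∈ x then g x * (z + 1) ^ (x.erase j).card else 0) := by
  calc ∑' x, (if j ∈ x then g x * z ^ (x.erase j).card else 0)
      = ∑' x : Finset ℕ+, a * ∑' y, (if x ⊆ y then (if j ∈ x then g y * z ^ (x.erase j).card else 0) else 0) := by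
        refine tsum_congr (fun x => ?_)
        by_cases hj : j ∈ x
        · simp only [if_pos hj]
          rw [h x, mul_assoc, ← ENNReal.tsum_mul_right]
          congr 1
          refine tsum_congr (fun y => ?_)
          split_ifs <;> simp
        · simp [if_neg hj]
    _ = a * ∑' y : Finset ℕ+, ∑' x, (if x ⊆ y then (if j ∈ x then g y * z ^ (x.erase j).card else 0) else 0) := by
        rw [ENNReal.tsum_mul_left, ENNReal.tsum_comm]
    _ = _ := by
        congr 1
        refine tsum_congr (fun y => ?_)
        rw [tsum_eq_sum (s := y.powerset)]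
        · have h1 : ∑ x ∈ y.powerset, (if x ⊆ y then (if j ∈ x then g y * z ^ (x.erase j).card else 0) else 0)
              = ∑ x ∈ y.powerset, (if j ∈ x then g y * z ^ (x.erase j).card else 0) := by
            refine Finset.sum_congr rfl (fun x hx => ?_)
            rw [Finset.mem_powerset] at hx
            rw [if_pos hx]
          rw [h1]
          by_cases hj : j ∈ y
          · rw [if_pos hj]
            have hy : y = insert j (y.erase j) := (Finset.insert_erase hj).symm
            have hne : j ∉ y.erase j := Finset.notMem_erase j y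
            have h2 : y.powerset = (insert j (y.erase j)).powerset := by rw [← hy]
            rw [h2, Finset.sum_powerset_insert hne]
            have h3 : ∑ t ∈ (y.erase j).powerset, (if j ∈ t then g y * z ^ (t.erase j).card else 0) = 0 := by
              refine Finset.sum_eq_zero (fun t ht => ?_)
              rw [Finset.mem_powerset] at ht
              rw [if_neg (fun hjt => hne (ht hjt))]
            have h4 : ∑ t ∈ (y.erase j).powerset, (if j ∈ insert j t then g y * z ^ ((insert j t).erase j).card else 0)
                = ∑ t ∈ (y.erase j).powerset, g y * z ^ t.card := by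
              refine Finset.sum_congr rfl (fun t ht => ?_)
              rw [Finset.mem_powerset] at ht
              have hjt : j ∉ t := fun hjt => hne (ht hjt)
              rw [if_pos (Finset.mem_insert_self j t), Finset.erase_insert hjt]
            rw [h3, h4, zero_add]
            have h5 := Finset.sum_pow_mul_eq_add_pow z (1 : ℝ≥0∞) (y.erase j)
            rw [← h5, Finset.mul_sum]
            refine Finset.sum_congr rfl (fun x _ => ?_)
            rw [one_pow, mul_one]
          · rw [if_neg hj]
            refine Finset.sum_eq_zero (fun t ht => ?_)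
            rw [Finset.mem_powerset] at ht
            rw [if_neg (fun hjt => hj (ht hjt))]
        · intro x hx
          rw [Finset.mem_powerset] at hx
          rw [if_neg hx]

lemma iter {A : ℝ≥0∞ → ℝ≥0∞} {a : ℝ≥0∞} (h : ∀ z, A z = a * A (z + 1)) (k : ℕ) :
    A 1 = a ^ k * A (k + 1) := by
  induction k with
  | zero => simp
  | succ k ih =>
    rw [ih, h (k + 1)]
    push_cast
    rw [pow_succ, mul_assoc]

open Classical in
lemma main (h : ∀ x, g x = a * ∑' y, if x ⊆ y then g y else 0) (h1 : ∑' x, g x = 1) (j : ℕ+) :
    g {j} = 0 := by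
  have hM := iter (A := fun z => ∑' x, g x * z ^ x.card) (fun z => gen_step g a h z)
  have hJ := iter (A := fun z => ∑' x, (if j ∈ x then g x * z ^ (x.erase j).card else 0))
    (fun z => gen_step_j g a h z j)
  simp only [one_pow, mul_one] at hM hJ
  have hkey : ∀ k : ℕ, ((k : ℝ≥0∞) + 1) * g {j} ≤ 1 := by
    intro k
    have hle : g {j} ≤ ∑' x, (if j ∈ x then g x else 0) := by
      have := ENNReal.le_tsum (f := fun x : Finset ℕ+ => if j ∈ x then g x else 0) {j}
      simpa using this
    have h2 : ((k : ℝ≥0∞) + 1) * ∑' x, (if j ∈ x then g x * ((k : ℝ≥0∞) + 1) ^ (x.erase j).card else 0) ≤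
        ∑' x, g x * ((k : ℝ≥0∞) + 1) ^ x.card := by
      rw [← ENNReal.tsum_mul_left]
      refine ENNReal.tsum_le_tsum (fun x => ?_)
      split_ifs with hx
      · have : x.card = (x.erase j).card + 1 := by
          rw [Finset.card_erase_of_mem hx]
          have := Finset.card_pos.mpr ⟨j, hx⟩
          omega
        rw [this, pow_succ]
        apply le_of_eq
        ring
      · simp
    calc ((k : ℝ≥0∞) + 1) * g {j} ≤ ((k : ℝ≥0∞) + 1) * ∑' x, (if j ∈ x then g x else 0) := by gcongr
      _ = ((k : ℝ≥0∞) + 1) * (a ^ k * ∑' x, (if j ∈ x then g x * ((k : ℝ≥0∞) + 1) ^ (x.erase j).card else 0)) := by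
          rw [hJ k]
      _ = a ^ k * (((k : ℝ≥0∞) + 1) * ∑' x, (if j ∈ x then g x * ((k : ℝ≥0∞) + 1) ^ (x.erase j).card else 0)) := by
          ring
      _ ≤ a ^ k * ∑' x, g x * ((k : ℝ≥0∞) + 1) ^ x.card := by gcongr
      _ = 1 := by rw [← hM k, h1]
  by_contra hne
  have hlt : g {j} ≠ ⊤ := by
    have := ENNReal.le_tsum (f := g) {j}
    rw [h1] at this
    exact ne_top_of_le_ne_top ENNReal.one_ne_top this
  have hinv : (g {j})⁻¹ ≠ ⊤ := ENNReal.inv_ne_top.mpr hne
  obtain ⟨n, hn⟩ := ENNReal.exists_nat_gt hinv
  have h3 := hkey n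
  have h4 : (1 : ℝ≥0∞) < n * g {j} := by
    rw [← ENNReal.inv_mul_cancel hne hlt]
    exact (ENNReal.mul_lt_mul_iff_left hne hlt).mpr hn
  have h5 : (n : ℝ≥0∞) * g {j} ≤ ((n : ℝ≥0∞) + 1) * g {j} := by
    gcongr
    exact le_self_add
  exact absurd (lt_of_lt_of_le h4 (h5.trans h3)) (lt_irrefl _)

end aux

/-- No probability distribution on the finite subsets of the positive integers with full support
has constant rate. -/
theorem result : ¬ ∃ (f : Finset ℕ+ → ℝ) (α : ℝ),
    IsDistribution f ∧ (∀ x, 0 < f x) ∧ HasConstantRate f α := by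
  classical
  rintro ⟨f, α, ⟨h0, h1⟩, hpos, hrate⟩
  have hup0 : upper f ∅ = 1 := by
    unfold upper
    simp only [Finset.empty_subset, if_true]
    exact h1.tsum_eq
  have hα : 0 < α := by
    have := hrate ∅
    rw [hup0, mul_one] at this
    rw [← this]
    exact hpos ∅
  set g : Finset ℕ+ → ℝ≥0∞ := fun x => ENNReal.ofReal (f x) with hg
  have hsum : ∑' x, g x = 1 := by
    rw [hg, ← ENNReal.ofReal_tsum_of_nonneg h0 h1.summable, h1.tsum_eq, ENNReal.ofReal_one]
  have hgr : ∀ x, g x = ENNReal.ofReal α * ∑' y, if x ⊆ y then g y else 0 := by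
    intro x
    have hs : Summable (fun y => if x ⊆ y then f y else 0) := by
      refine Summable.of_nonneg_of_le (fun y => ?_) (fun y => ?_) h1.summable
      · split_ifs
        · exact h0 y
        · exact le_rfl
      · split_ifs
        · exact le_rfl
        · exact h0 y
    have hnn : ∀ y, 0 ≤ (if x ⊆ y then f y else 0) := by
      intro y
      split_ifs
      · exact h0 y
      · exact le_rfl
    simp only [hg]
    rw [hrate x, ENNReal.ofReal_mul hα.le]
    congr 1
    have : upper f x = ∑' y, if x ⊆ y then f y else 0 := by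
      unfold upper
      refine tsum_congr (fun y => ?_)
      congr
    rw [this, ENNReal.ofReal_tsum_of_nonneg hnn hs]
    refine tsum_congr (fun y => ?_)
    split_ifs <;> simp
  have := main g (ENNReal.ofReal α) (by
    intro x
    convert hgr x using 3) hsum 1
  simp only [hg, ENNReal.ofReal_eq_zero] at this
  exact absurd (hpos {1}) (not_lt.mpr this)

end Pool.Agent.Results.MP_e3a9f0_pr.NoConstantRate
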